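import Mathlib

set_option autoImplicit false

open Finset

namespace Pool.Agent.P.MP_cab928_co

/-- Generalised binomial coefficient. -/
noncomputable def B (x : ℝ) (k : ℕ) : ℝ := (∏ j ∈ range k, (x - j)) / (k.factorial : ℝ)

lemma B_zero (x : ℝ) : B x 0 = 1 := by simp [B]

lemma B_succ (x : ℝ) (k : ℕ) : B x (k + 1) = B x k * (x - k) / (k + 1) := by
  unfold B
  rw [prod_range_succ, Nat.factorial_succ]
  push_cast
  field_simp

lemma B_succ' (x : ℝ) (k : ℕ) : B x (k + 1) = x / (k + 1) * B (x - 1) k := by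
  unfold B
  rw [prod_range_succ', Nat.factorial_succ]
  push_cast
  have : ∏ j ∈ range k, (x - ((j : ℝ) + 1)) = ∏ j ∈ range k, (x - 1 - j) :=
    prod_congr rfl fun j _ => by ring
  rw [this]
  field_simp
  ring

lemma B_nonneg {x : ℝ} {k : ℕ} (h : (k : ℝ) - 1 ≤ x) : 0 ≤ B x k := by
  unfold B
  apply div_nonneg _ (by positivity)
  apply prod_nonneg
  intro j hj
  have : (j : ℝ) + 1 ≤ k := by exact_mod_cast mem_range.1 hj
  linarith

lemma B_pos {x : ℝ} {k : ℕ} (h : (k : ℝ) - 1 < x) : 0 < B x k := by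
  unfold B
  apply div_pos _ (by positivity)
  apply prod_pos
  intro j hj
  have : (j : ℝ) + 1 ≤ k := by exact_mod_cast mem_range.1 hj
  linarith

lemma B_mono {x y : ℝ} {k : ℕ} (h : (k : ℝ) - 1 ≤ x) (hxy : x ≤ y) : B x k ≤ B y k := by
  unfold B
  apply div_le_div_of_nonneg_right _ (by positivity)
  apply prod_le_prod
  · intro j hj
    have : (j : ℝ) + 1 ≤ k := by exact_mod_cast mem_range.1 hj
    linarith
  · intro j _
    linarith

lemma B_strictMono {x y : ℝ} {k : ℕ} (h : (k : ℝ) ≤ x) (hxy : x < y) :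
    B x (k + 1) < B y (k + 1) := by
  rw [B_succ, B_succ]
  apply div_lt_div_of_pos_right _ (by positivity)
  have h1 : B x k ≤ B y k := B_mono (by linarith) hxy.le
  have h2 : 0 < B y k := B_pos (by linarith)
  have h3 : 0 ≤ B x k := B_nonneg (by linarith)
  nlinarith

lemma B_self (k : ℕ) : B k k = 1 := by
  induction k with
  | zero => exact B_zero _
  | succ k ih =>
    rw [B_succ']
    push_cast
    rw [add_sub_cancel_right, ih, div_self (by positivity), mul_one]

lemma le_of_one_le_B {y : ℝ} {k : ℕ} (h : (k : ℝ) ≤ y) (h1 : 1 ≤ B y (k + 1)) :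
    (k : ℝ) + 1 ≤ y := by
  by_contra hc
  have := B_strictMono h (not_le.1 hc)
  have h2 := B_self (k + 1)
  push_cast at h2
  linarith

lemma continuous_B (k : ℕ) : Continuous fun x => B x k := by
  unfold B
  fun_prop

lemma B_ge (k : ℕ) {d : ℝ} (hd : 0 ≤ d) : d ≤ B (k + 1 + d * (k + 1)) (k + 1) := by
  rw [B_succ']
  have h1 : (1 : ℝ) ≤ B (k + 1 + d * (k + 1) - 1) k := by
    refine (B_self k).symm.le.trans ?_
    apply B_mono (by linarith)
    have : 0 ≤ d * (k + 1) := by positivity
    linarith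
  have h2 : d ≤ (k + 1 + d * (k + 1)) / (k + 1) := by
    rw [le_div_iff₀ (by positivity)]
    have : (0 : ℝ) ≤ k := by positivity
    linarith
  nlinarith

lemma exists_B_eq (k : ℕ) {d : ℝ} (hd : 0 ≤ d) : ∃ x, (k : ℝ) ≤ x ∧ B x (k + 1) = d := by
  have h0 : B k (k + 1) = 0 := by rw [B_succ]; simp
  have hle : (k : ℝ) ≤ k + 1 + d * (k + 1) := by
    have : 0 ≤ d * (k + 1) := by positivity
    linarith
  obtain ⟨x, hx, hx2⟩ := intermediate_value_Icc hle (continuous_B (k + 1)).continuousOn
    (show d ∈ Set.Icc (B k (k + 1)) (B (k + 1 + d * (k + 1)) (k + 1)) from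
      ⟨h0 ▸ hd, B_ge k hd⟩)
  exact ⟨x, hx.1, hx2⟩

lemma B_split (x : ℝ) (a b : ℕ) :
    B x (a + b) * ((a + b).choose a : ℝ) = B x a * B (x - a) b := by
  unfold B
  rw [prod_range_add]
  have h := Nat.choose_mul_factorial_mul_factorial (Nat.le_add_right a b)
  rw [Nat.add_sub_cancel_left] at h
  have h' : ((a + b).factorial : ℝ) = ((a + b).choose a : ℝ) * a.factorial * b.factorial := by
    exact_mod_cast h.symm
  have hc : ((a + b).choose a : ℝ) ≠ 0 := by
    exact_mod_cast (Nat.choose_pos (Nat.le_add_right a b)).ne'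
  have : ∏ j ∈ range b, (x - ((a + j : ℕ) : ℝ)) = ∏ j ∈ range b, (x - a - j) :=
    prod_congr rfl fun j _ => by push_cast; ring
  rw [this, h']
  field_simp

variable {V : Type*} [Fintype V] [DecidableEq V]

/-- The `u`-sets all of whose `r`-subsets lie in `G`. -/
def cl (G : Finset (Finset V)) (r u : ℕ) : Finset (Finset V) :=
  (powersetCard u univ).filter fun T => powersetCard r T ⊆ G

lemma mem_cl {G : Finset (Finset V)} {r u : ℕ} {T : Finset V} :
    T ∈ cl G r u ↔ T.card = u ∧ ∀ S ⊆ T, S.card = r → S ∈ G := by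
  simp only [cl, mem_filter, mem_powersetCard, subset_univ, true_and]
  refine and_congr_right fun _ => ⟨fun h S hS hc => h (mem_powersetCard.2 ⟨hS, hc⟩), ?_⟩
  intro h S hS
  exact h S (mem_powersetCard.1 hS).1 (mem_powersetCard.1 hS).2

/-- The link of a set `I`. -/
def lk (G : Finset (Finset V)) (I : Finset V) : Finset (Finset V) :=
  (G.filter fun e => I ⊆ e).image fun e => e \ I

omit [Fintype V] in
lemma card_lk (G : Finset (Finset V)) (I : Finset V) :
    (lk G I).card = (G.filter fun e => I ⊆ e).card := by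
  apply card_image_of_injOn
  intro a ha b hb hab
  have ha' := (mem_filter.1 ha).2
  have hb' := (mem_filter.1 hb).2
  simp only at hab
  rw [← sdiff_union_of_subset ha', ← sdiff_union_of_subset hb', hab]

lemma card_cl_filter_le (G : Finset (Finset V)) (I : Finset V) (r u : ℕ) :
    ((cl G (I.card + r) (I.card + u)).filter fun T => I ⊆ T).card ≤ (cl (lk G I) r u).card := by
  apply card_le_card_of_injOn (fun T => T \ I)
  · intro T hT
    have hT' := mem_filter.1 (mem_coe.1 hT)
    obtain ⟨hc, hcl⟩ := mem_cl.1 hT'.1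
    refine mem_coe.2 (mem_cl.2 ⟨?_, ?_⟩)
    · rw [card_sdiff_of_subset hT'.2, hc]; omega
    · intro S hS hSc
      have hd : Disjoint S I := Disjoint.mono_left hS sdiff_disjoint
      refine mem_image.2 ⟨S ∪ I, mem_filter.2 ⟨hcl _ ?_ ?_, subset_union_right⟩, ?_⟩
      · exact union_subset (hS.trans sdiff_subset) hT'.2
      · rw [card_union_of_disjoint hd, hSc]; omega
      · exact union_sdiff_cancel_right hd
  · intro a ha b hb hab
    have ha' := (mem_filter.1 (mem_coe.1 ha)).2
    have hb' := (mem_filter.1 (mem_coe.1 hb)).2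
    simp only at hab
    rw [← sdiff_union_of_subset ha', ← sdiff_union_of_subset hb', hab]

lemma sum_card_filter (F : Finset (Finset V)) {k : ℕ} (i : ℕ) (hF : ∀ e ∈ F, e.card = k)
    (w : Finset V → ℝ) :
    ∑ I ∈ powersetCard i (univ : Finset V), ∑ T ∈ F.filter (fun T => I ⊆ T), w T =
      (k.choose i : ℝ) * ∑ T ∈ F, w T := by
  simp_rw [sum_filter]
  rw [sum_comm, mul_sum]
  refine sum_congr rfl fun T hT => ?_
  rw [← sum_filter, sum_const, nsmul_eq_mul]
  congr 2
  rw [← hF T hT, ← card_powersetCard]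
  congr 1
  ext I
  simp [mem_powersetCard, and_comm]

/-- One step of the Lovasz form of the Kruskal-Katona theorem (Keevash's proof). -/
lemma kk_step (r : ℕ) : ∀ (G : Finset (Finset V)) (y : ℝ), (∀ e ∈ G, e.card = r + 1) →
    (r : ℝ) + 1 ≤ y → (G.card : ℝ) ≤ B y (r + 1) →
    ((cl G (r + 1) (r + 2)).card : ℝ) ≤ B y (r + 2) := by
  induction r using Nat.strong_induction_on with
  | _ r ih =>
  intro G y hG hy hcard
  have key : ∀ I ∈ powersetCard 1 (univ : Finset V),
      (((cl G (r + 1) (r + 2)).filter fun T => I ⊆ T).card : ℝ) ≤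
        (y - (r + 1)) / (r + 1) * ((G.filter fun e => I ⊆ e).card : ℝ) := by
    intro I hI
    have hI1 : I.card = 1 := (mem_powersetCard.1 hI).2
    set d : ℝ := ((G.filter fun e => I ⊆ e).card : ℝ) with hd
    have hd0 : 0 ≤ d := by positivity
    have hlk := card_cl_filter_le G I r (r + 1)
    rw [hI1, show 1 + r = r + 1 by omega, show 1 + (r + 1) = r + 2 by omega] at hlk
    have hc0 : 0 ≤ (y - (r + 1)) / (r + 1) := div_nonneg (by linarith) (by positivity)
    rcases le_or_gt (B (y - 1) r) d with h1 | h1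
    · have h2 : ((cl G (r + 1) (r + 2)).filter fun T => I ⊆ T).card ≤
          (G.filter fun e => ¬ I ⊆ e).card := by
        apply card_le_card_of_injOn (fun T => T \ I)
        · intro T hT
          have hT' := mem_filter.1 (mem_coe.1 hT)
          obtain ⟨hc, hcl⟩ := mem_cl.1 hT'.1
          refine mem_coe.2 (mem_filter.2 ⟨hcl _ sdiff_subset ?_, ?_⟩)
          · rw [card_sdiff_of_subset hT'.2, hc]; omega
          · intro h
            obtain ⟨v, rfl⟩ := card_eq_one.1 hI1
            have := h (mem_singleton_self v)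
            simp at this
        · intro a ha b hb hab
          have ha' := (mem_filter.1 (mem_coe.1 ha)).2
          have hb' := (mem_filter.1 (mem_coe.1 hb)).2
          simp only at hab
          rw [← sdiff_union_of_subset ha', ← sdiff_union_of_subset hb', hab]
      have h3 := card_filter_add_card_filter_not (s := G) (fun e => I ⊆ e)
      have h4 : d + ((G.filter fun e => ¬ I ⊆ e).card : ℝ) = G.card := by
        rw [hd]; exact_mod_cast h3
      have h5 : (((cl G (r + 1) (r + 2)).filter fun T => I ⊆ T).card : ℝ) ≤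
          ((G.filter fun e => ¬ I ⊆ e).card : ℝ) := by exact_mod_cast h2
      rw [B_succ'] at hcard
      have h6 : y / (r + 1) * B (y - 1) r ≤ y / (r + 1) * d :=
        mul_le_mul_of_nonneg_left h1 (div_nonneg (by linarith [(Nat.cast_nonneg r : (0 : ℝ) ≤ r)])
          (by positivity))
      have h7 : (y - (r + 1)) / (r + 1) * d = y / (r + 1) * d - d := by field_simp
      linarith
    · by_cases hd1 : (G.filter fun e => I ⊆ e).card = 0
      · have h0 : ((cl G (r + 1) (r + 2)).filter fun T => I ⊆ T).card = 0 := by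
          rw [card_eq_zero, filter_eq_empty_iff]
          intro T hT hIT
          obtain ⟨hc, hcl⟩ := mem_cl.1 hT
          obtain ⟨S, hIS, hST, hS⟩ := exists_subsuperset_card_eq hIT
            (show I.card ≤ r + 1 by omega) (show r + 1 ≤ T.card by omega)
          rw [card_eq_zero, filter_eq_empty_iff] at hd1
          exact hd1 (hcl S hST hS) hIS
        rw [h0]
        simpa using mul_nonneg hc0 hd0
      · have hd2 : 1 ≤ d := by
          rw [hd]; exact_mod_cast Nat.one_le_iff_ne_zero.2 hd1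
        rcases r with _ | r
        · rw [B_zero] at h1; linarith
        obtain ⟨x, hx, hxd⟩ := exists_B_eq r hd0
        have hx1 : (r : ℝ) + 1 ≤ x := le_of_one_le_B hx (by linarith)
        have hxy : x ≤ y - 1 := by
          by_contra hc
          have := B_mono (k := r + 1) (x := y - 1) (y := x) (by push_cast at hy ⊢; linarith)
            (not_le.1 hc).le
          linarith
        have h8 := ih r (by omega) (lk G I) x (by
          intro e he
          obtain ⟨e', he', rfl⟩ := mem_image.1 he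
          have := mem_filter.1 he'
          rw [card_sdiff_of_subset this.2, hG e' this.1]; omega) hx1 (by
          rw [card_lk, hxd])
        have h9 : (((cl G (r + 1 + 1) (r + 1 + 2)).filter fun T => I ⊆ T).card : ℝ) ≤
            ((cl (lk G I) (r + 1) (r + 1 + 1)).card : ℝ) := by exact_mod_cast hlk
        refine h9.trans (h8.trans ?_)
        rw [show r + 2 = (r + 1) + 1 by rfl, B_succ, hxd]
        push_cast
        rw [mul_div_assoc, mul_comm]
        apply mul_le_mul_of_nonneg_right _ hd0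
        apply div_le_div_of_nonneg_right _ (by positivity)
        linarith
  have s1 := sum_card_filter (cl G (r + 1) (r + 2)) 1 (k := r + 2)
    (fun e he => (mem_cl.1 he).1) (fun _ => 1)
  have s2 := sum_card_filter G 1 hG (fun _ => 1)
  simp only [sum_const, nsmul_eq_mul, mul_one, Nat.choose_one_right] at s1 s2
  have s3 := sum_le_sum key
  rw [← mul_sum, s1, s2] at s3
  rw [show r + 2 = (r + 1) + 1 by rfl, B_succ, le_div_iff₀ (by positivity)]
  push_cast at s3 ⊢
  have e : (y - (r + 1)) / (r + 1) * ((r + 1) * (G.card : ℝ)) = (y - (r + 1)) * G.card := by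
    field_simp
  rw [e] at s3
  have : (y - (r + 1)) * G.card ≤ (y - (r + 1)) * B y (r + 1) :=
    mul_le_mul_of_nonneg_left hcard (by linarith)
  have e2 : ((r : ℝ) + 2) = r + 1 + 1 := by ring
  rw [e2] at s3
  linarith

/-- Lovasz form of the Kruskal-Katona theorem for cliques. -/
lemma kk (r : ℕ) (G : Finset (Finset V)) (y : ℝ) (hy : (r : ℝ) ≤ y)
    (hcard : (G.card : ℝ) ≤ B y (r + 1)) (j : ℕ) (hne : (cl G (r + 1) (r + 1 + j)).Nonempty) :
    (r : ℝ) + 1 + j ≤ y ∧ ((cl G (r + 1) (r + 1 + j)).card : ℝ) ≤ B y (r + 1 + j) := by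
  induction j with
  | zero =>
    have h1 : cl G (r + 1) (r + 1 + 0) ⊆ G := fun T hT =>
      (mem_cl.1 hT).2 T Subset.rfl (mem_cl.1 hT).1
    have h2 : ((cl G (r + 1) (r + 1 + 0)).card : ℝ) ≤ G.card := by
      exact_mod_cast card_le_card h1
    have h3 : (1 : ℝ) ≤ ((cl G (r + 1) (r + 1 + 0)).card : ℝ) := by
      exact_mod_cast hne.card_pos
    refine ⟨?_, h2.trans hcard⟩
    have := le_of_one_le_B hy (h3.trans (h2.trans hcard))
    simpa using this
  | succ j ih =>
    have hsub : cl G (r + 1) (r + 1 + (j + 1)) ⊆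
        cl (cl G (r + 1) (r + 1 + j)) (r + j + 1) (r + j + 2) := by
      intro T hT
      obtain ⟨hc, hcl⟩ := mem_cl.1 hT
      refine mem_cl.2 ⟨by omega, fun S hS hSc => mem_cl.2 ⟨by omega, fun S' hS' hc' => ?_⟩⟩
      exact hcl S' (hS'.trans hS) hc'
    have hne' : (cl G (r + 1) (r + 1 + j)).Nonempty := by
      obtain ⟨T, hT⟩ := hne
      obtain ⟨hc, hcl⟩ := mem_cl.1 (hsub hT)
      obtain ⟨S, hS, hSc⟩ := exists_subset_card_eq (show r + j + 1 ≤ T.card by omega)
      exact ⟨S, hcl S hS hSc⟩
    obtain ⟨h1, h2⟩ := ih hne'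
    have h3 := kk_step (r + j) (cl G (r + 1) (r + 1 + j)) y
      (fun e he => by rw [(mem_cl.1 he).1]; omega) (by push_cast; linarith)
      (by rwa [show r + j + 1 = r + 1 + j by omega])
    have h4 : ((cl G (r + 1) (r + 1 + (j + 1))).card : ℝ) ≤ B y (r + j + 2) :=
      le_trans (by exact_mod_cast card_le_card hsub) h3
    have h5 : (1 : ℝ) ≤ ((cl G (r + 1) (r + 1 + (j + 1))).card : ℝ) := by
      exact_mod_cast hne.card_pos
    refine ⟨?_, h4.trans_eq (by rw [show r + 1 + (j + 1) = r + j + 2 by omega])⟩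
    have := le_of_one_le_B (k := r + j + 1) (y := y) (by push_cast; linarith) (h5.trans h4)
    push_cast at this ⊢
    linarith

/-- The localized inequality, with the numbers `x I` and `z T` given by their properties. -/
lemma main (i r j : ℕ) (H : Finset (Finset V)) (hH : ∀ e ∈ H, e.card = i + (r + 1))
    (x z : Finset V → ℝ)
    (hx : ∀ I : Finset V, I.card = i → (r : ℝ) ≤ x I - i ∧
      ((H.filter fun e => I ⊆ e).card : ℝ) = B (x I - i) (r + 1))
    (hz : ∀ T I : Finset V, I ⊆ T → I.card = i → x I ≤ z T) :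
    ∑ T ∈ cl H (i + (r + 1)) (i + (r + 1 + j)), 1 / B (z T - (i + (r + 1) : ℕ)) j ≤
      (H.card : ℝ) / ((i + (r + 1 + j)).choose (i + (r + 1)) : ℝ) := by
  have hc1 : (0 : ℝ) < ((r + 1 + j).choose (r + 1) : ℝ) := by
    exact_mod_cast Nat.choose_pos (by omega)
  have key : ∀ I ∈ powersetCard i (univ : Finset V),
      ∑ T ∈ (cl H (i + (r + 1)) (i + (r + 1 + j))).filter (fun T => I ⊆ T),
        1 / B (z T - (i + (r + 1) : ℕ)) j ≤
      (∑ _T ∈ H.filter (fun T => I ⊆ T), (1 : ℝ)) / ((r + 1 + j).choose (r + 1) : ℝ) := by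
    intro I hI
    have hIc : I.card = i := (mem_powersetCard.1 hI).2
    obtain ⟨hx1, hx2⟩ := hx I hIc
    rcases ((cl H (i + (r + 1)) (i + (r + 1 + j))).filter (fun T => I ⊆ T)).eq_empty_or_nonempty
      with h0 | h0
    · rw [h0, sum_empty]; positivity
    have hle := card_cl_filter_le H I (r + 1) (r + 1 + j)
    rw [hIc] at hle
    have hne : (cl (lk H I) (r + 1) (r + 1 + j)).Nonempty :=
      card_pos.1 (lt_of_lt_of_le h0.card_pos hle)
    obtain ⟨h1, h2⟩ := kk r (lk H I) (x I - i) hx1 (by rw [card_lk, hx2]) j hne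
    have hpos : 0 < B (x I - (i + (r + 1) : ℕ)) j := B_pos (by push_cast; linarith)
    have h3 : ∑ T ∈ (cl H (i + (r + 1)) (i + (r + 1 + j))).filter (fun T => I ⊆ T),
        1 / B (z T - (i + (r + 1) : ℕ)) j ≤
        ∑ _T ∈ (cl H (i + (r + 1)) (i + (r + 1 + j))).filter (fun T => I ⊆ T),
        1 / B (x I - (i + (r + 1) : ℕ)) j := by
      apply sum_le_sum
      intro T hT
      apply one_div_le_one_div_of_le hpos
      apply B_mono (by push_cast; linarith)
      have := hz T I (mem_filter.1 hT).2 hIc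
      linarith
    refine h3.trans ?_
    simp only [sum_const, nsmul_eq_mul, mul_one]
    rw [hx2, mul_one_div, div_le_div_iff₀ hpos hc1]
    have h4 := B_split (x I - i) (r + 1) j
    have e : x I - i - ((r + 1 : ℕ) : ℝ) = x I - (i + (r + 1) : ℕ) := by push_cast; ring
    rw [e] at h4
    rw [← h4]
    apply mul_le_mul_of_nonneg_right _ hc1.le
    exact le_trans (by exact_mod_cast hle) h2
  have s3 := sum_le_sum key
  rw [← sum_div, sum_card_filter _ i (k := i + (r + 1 + j)) (fun e he => (mem_cl.1 he).1),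
    sum_card_filter H i hH] at s3
  simp only [sum_const, nsmul_eq_mul, mul_one] at s3
  have hch := Nat.choose_mul (n := i + (r + 1 + j)) (k := i + (r + 1)) (s := i) (by omega)
  rw [Nat.add_sub_cancel_left, Nat.add_sub_cancel_left] at hch
  have hch' : ((i + (r + 1 + j)).choose (i + (r + 1)) : ℝ) * ((i + (r + 1)).choose i : ℝ) =
      ((i + (r + 1 + j)).choose i : ℝ) * ((r + 1 + j).choose (r + 1) : ℝ) := by
    exact_mod_cast hch
  have hc2 : (0 : ℝ) < ((i + (r + 1 + j)).choose (i + (r + 1)) : ℝ) := by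
    exact_mod_cast Nat.choose_pos (by omega)
  have hc3 : (0 : ℝ) < ((i + (r + 1)).choose i : ℝ) := by
    exact_mod_cast Nat.choose_pos (by omega)
  rw [le_div_iff₀ hc1] at s3
  rw [le_div_iff₀ hc2]
  apply le_of_mul_le_mul_right _ hc3
  rw [mul_assoc, hch']
  linarith

/-- The largest root. -/
lemma sSup_root (i r : ℕ) {d : ℝ} (hd : 0 ≤ d) :
    (r : ℝ) ≤ sSup {x : ℝ | d = B (x - i) (r + 1)} - i ∧
      d = B (sSup {x : ℝ | d = B (x - i) (r + 1)} - i) (r + 1) := by
  obtain ⟨y, hy, hyd⟩ := exists_B_eq r hd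
  have hg : IsGreatest {x : ℝ | d = B (x - i) (r + 1)} (y + i) := by
    refine ⟨by simp [hyd], fun x hx => ?_⟩
    by_contra hc
    have h1 : y < x - i := by linarith [not_le.1 hc]
    have := B_strictMono hy h1
    have hx' : d = B (x - i) (r + 1) := hx
    linarith
  rw [hg.csSup_eq]
  simp [hy, hyd]

end Pool.Agent.P.MP_cab928_co
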